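import Pool.Agent.H95.ESL.Stmts
import Pool.Agent.H62.PNT

/-!
Row CON of board esl (MP_3ddf05_nt): prime number theorem.
-/

set_option autoImplicit false

namespace ESL
open Finset Filter Topology

theorem con_thm : S_CON := by
  intro c K₀ hc hc4
  have hlog2 : 0 < Real.log 2 := Real.log_pos (by norm_num)
  -- the choice of ε
  have hε : 0 < (1 / (4 * c) - Real.log 2) / 4 := by
    have h1 : c * (4 * Real.log 2) < 1 := by
      rwa [lt_div_iff₀ (by positivity)] at hc4
    have h2 : Real.log 2 < 1 / (4 * c) := by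
      rw [lt_div_iff₀ (by positivity)]
      linarith
    linarith
  set ε : ℝ := (1 / (4 * c) - Real.log 2) / 4 with hεdef
  refine ⟨ε, hε, ?_⟩
  set A : ℝ := 4 * (Real.log 2 + 2 * ε) with hA
  have hApos : 0 < A := by positivity
  have hcA : c * A ≤ 1 := by
    have h1 : Real.log 2 + 4 * ε = 1 / (4 * c) := by
      rw [hεdef]
      ring
    have h2 : c * (4 * (Real.log 2 + 4 * ε)) = 1 := by
      rw [h1]
      field_simp
    have h3 : c * A = c * (4 * (Real.log 2 + 4 * ε)) - 8 * (c * ε) := by
      rw [hA]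
      ring
    have h4 : 0 < c * ε := by positivity
    linarith
  -- limits
  have t1 : Tendsto (fun y : ℕ => (Nat.primeCounting y : ℝ) * Real.log y / y) atTop (𝓝 1) := by
    have h := Pool.Agent.H62.PNT.primeCounting_tendsto.comp tendsto_natCast_atTop_atTop
    refine h.congr fun y => ?_
    simp only [Function.comp_apply, Nat.floor_natCast]
  have t2 : Tendsto (fun y : ℕ => Real.log y / (y : ℝ)) atTop (𝓝 0) := by
    have h : Tendsto (fun x : ℝ => Real.log x / x) atTop (𝓝 0) :=
      Real.isLittleO_log_id_atTop.tendsto_div_nhds_zero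
    exact h.comp tendsto_natCast_atTop_atTop
  have t3 : Tendsto (fun y : ℕ => K₀ * (Real.log y / (y : ℝ)) +
      4 * (Real.log 2 + ε) * ((Nat.primeCounting y : ℝ) * Real.log y / y)) atTop
      (𝓝 (K₀ * 0 + 4 * (Real.log 2 + ε) * 1)) := (t2.const_mul K₀).add (t1.const_mul _)
  have hlt : K₀ * 0 + 4 * (Real.log 2 + ε) * 1 < A := by
    rw [hA]
    linarith
  have e1 := t3.eventually (gt_mem_nhds hlt)
  have e2 : ∀ᶠ y : ℕ in atTop, max 1 A ≤ Real.log y :=
    (Real.tendsto_log_atTop.comp tendsto_natCast_atTop_atTop).eventually_ge_atTop _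
  obtain ⟨y₀, hy₀⟩ := eventually_atTop.1 (e1.and (e2.and (eventually_ge_atTop 1)))
  refine ⟨y₀, fun y hy L hL1 hL => ?_⟩
  obtain ⟨h1, h2, h3⟩ := hy₀ y hy
  have hypos : (0 : ℝ) < y := by exact_mod_cast h3
  have hlog : 0 < Real.log y := lt_of_lt_of_le one_pos ((le_max_left _ _).trans h2)
  have hlogA : A ≤ Real.log y := (le_max_right _ _).trans h2
  have h4 : L * Real.log y ≤ A * y := by
    have h5 : (K₀ + 4 * (Real.log 2 + ε) * Nat.primeCounting y) * Real.log y < A * y := by
      have h6 : K₀ * (Real.log y / (y : ℝ)) +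
          4 * (Real.log 2 + ε) * ((Nat.primeCounting y : ℝ) * Real.log y / y) =
          (K₀ + 4 * (Real.log 2 + ε) * Nat.primeCounting y) * Real.log y / y := by
        ring
      rw [h6, div_lt_iff₀ hypos] at h1
      exact h1
    exact (mul_le_mul_of_nonneg_right hL hlog.le).trans h5.le
  have hLpos : 0 < L := lt_of_lt_of_le one_pos hL1
  have hLy : L ≤ y := by
    have h5 : L * A ≤ A * y := (mul_le_mul_of_nonneg_left hlogA hLpos.le).trans h4
    have h6 : A * L ≤ A * y := by linarith
    exact le_of_mul_le_mul_left h6 hApos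
  have h7 : Real.log L ≤ Real.log y := Real.log_le_log hLpos hLy
  calc c * L * Real.log L ≤ c * L * Real.log y :=
        mul_le_mul_of_nonneg_left h7 (by positivity)
    _ = c * (L * Real.log y) := by ring
    _ ≤ c * (A * y) := mul_le_mul_of_nonneg_left h4 hc.le
    _ = (c * A) * y := by ring
    _ ≤ 1 * y := mul_le_mul_of_nonneg_right hcA hypos.le
    _ = y := one_mul _

end ESL
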